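import Pool.Agent.N396.ZK.Stm2

/-!
# Zeros of Charlier polynomials give solutions of the linear programme
-/

set_option autoImplicit false

namespace Pool.Agent.N354.ZK

open Finset Polynomial Pool.Agent.N396.ZK

/-- falling factorial -/
noncomputable def Pr (x : ℝ) (i : ℕ) : ℝ := ∏ l ∈ range i, (x - l)

/-- umbral map `X ^ i ↦ x (x-1) ⋯ (x-i+1)` -/
noncomputable def Phi (x : ℝ) : ℝ[X] →ₗ[ℝ] ℝ :=
  Polynomial.lsum (fun i => (Pr x i) • (LinearMap.id : ℝ →ₗ[ℝ] ℝ))

lemma Phi_monomial (x a : ℝ) (i : ℕ) : Phi x (monomial i a) = Pr x i * a := by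
  simp [Phi, Polynomial.lsum_apply, Polynomial.sum_monomial_index]

lemma Phi_X (x : ℝ) (q : ℝ[X]) : x * Phi x q = Phi x (X * (q + derivative q)) := by
  induction q using Polynomial.induction_on' with
  | add p q hp hq =>
    have : X * (p + q + derivative (p + q)) = X * (p + derivative p) + X * (q + derivative q) := by
      rw [derivative_add]; ring
    rw [this, map_add, mul_add, hp, hq, map_add]
  | monomial n a =>
    rw [mul_add, map_add, derivative_monomial, X_mul_monomial, X_mul_monomial, Phi_monomial,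
      Phi_monomial, Phi_monomial]
    rcases n with _ | n
    · simp [Pr]
    · simp only [Nat.add_sub_cancel]
      have : Pr x (n + 1 + 1) = Pr x (n + 1) * (x - (n + 1 : ℕ)) := by
        unfold Pr; rw [Finset.prod_range_succ]
      rw [this]; push_cast; ring

/-- `X ^ l ↦ C_l (x)` -/
noncomputable def Psi (μ x : ℝ) (p : ℝ[X]) : ℝ := Phi x (p.comp (X - C μ))

lemma Psi_add (μ x : ℝ) (p q : ℝ[X]) : Psi μ x (p + q) = Psi μ x p + Psi μ x q := by
  simp [Psi]

lemma Psi_sub (μ x : ℝ) (p q : ℝ[X]) : Psi μ x (p - q) = Psi μ x p - Psi μ x q := by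
  simp [Psi]

lemma Psi_C_mul (μ x a : ℝ) (p : ℝ[X]) : Psi μ x (C a * p) = a * Psi μ x p := by
  simp only [Psi, mul_comp, C_comp]
  rw [← smul_eq_C_mul, map_smul, smul_eq_mul]

lemma Psi_sum {ι : Type} (μ x : ℝ) (s : Finset ι) (f : ι → ℝ[X]) :
    Psi μ x (∑ i ∈ s, f i) = ∑ i ∈ s, Psi μ x (f i) := by
  classical
  induction s using Finset.induction_on with
  | empty => simp [Psi]
  | insert a s ha ih => rw [sum_insert ha, sum_insert ha, Psi_add, ih]

lemma Psi_X (μ x : ℝ) (p : ℝ[X]) :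
    x * Psi μ x p = Psi μ x ((X + C μ) * (p + derivative p)) := by
  unfold Psi
  rw [Phi_X]
  congr 1
  rw [derivative_comp]
  simp

lemma Psi_pow (μ x : ℝ) (j : ℕ) : Psi μ x (X ^ j) = chR μ j x := by
  unfold Psi chR
  rw [X_pow_comp, sub_eq_add_neg, add_pow, map_sum]
  refine sum_congr rfl (fun i _ => ?_)
  have : (X : ℝ[X]) ^ i * (-C μ) ^ (j - i) * (j.choose i : ℝ[X]) =
      monomial i ((-1) ^ (j - i) * (j.choose i : ℝ) * μ ^ (j - i)) := by
    rw [← C_mul_X_pow_eq_monomial]
    simp only [map_mul, map_pow, map_neg, map_one, map_natCast]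
    rw [neg_pow (C μ)]
    ring
  rw [this, Phi_monomial]
  unfold Pr
  ring

lemma chR_zero (μ x : ℝ) : chR μ 0 x = 1 := by simp [chR]

lemma chR_succ (μ x : ℝ) (j : ℕ) :
    chR μ (j + 1) x = (x - j - μ) * chR μ j x - j * μ * chR μ (j - 1) x := by
  have h := Psi_X μ x (X ^ j)
  have h2 : (X + C μ) * (X ^ j + derivative (X ^ j)) =
      X ^ (j + 1) + C (μ + j) * X ^ j + C (j * μ) * X ^ (j - 1) := by
    rw [derivative_X_pow]
    rcases j with _ | j
    · simp
    · simp only [Nat.add_sub_cancel, map_add, map_mul, map_natCast]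
      push_cast
      ring
  rw [h2, Psi_add, Psi_add, Psi_C_mul, Psi_C_mul, Psi_pow, Psi_pow, Psi_pow] at h
  linarith

/-- coefficients of the product `C_i C_j` in the basis `C_l` -/
noncomputable def cc (μ : ℝ) : ℕ → ℕ → ℝ[X]
  | 0, j => X ^ j
  | i + 1, j => X * cc μ i j + (j : ℝ[X]) * ((X + C μ) * cc μ i (j - 1))

lemma cc_zero (μ : ℝ) (j : ℕ) : cc μ 0 j = X ^ j := rfl

lemma cc_succ (μ : ℝ) (i j : ℕ) :
    cc μ (i + 1) j = X * cc μ i j + (j : ℝ[X]) * ((X + C μ) * cc μ i (j - 1)) := rfl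

lemma cc_der (μ : ℝ) (i : ℕ) : ∀ j : ℕ, derivative (cc μ i j) =
    (i : ℝ[X]) * cc μ (i - 1) j + (j : ℝ[X]) * cc μ i (j - 1) +
      (i : ℝ[X]) * (j : ℝ[X]) * cc μ (i - 1) (j - 1) := by
  induction i with
  | zero =>
    intro j
    rw [cc_zero, cc_zero, derivative_X_pow]
    simp
  | succ i ih =>
    intro j
    rw [cc_succ, derivative_add, derivative_mul, derivative_mul, derivative_mul, ih j, ih (j - 1),
      derivative_natCast, derivative_X, derivative_add, derivative_X, derivative_C,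
      cc_succ μ i (j - 1), Nat.add_sub_cancel]
    rcases i with _ | i
    · simp
      ring
    · rw [Nat.add_sub_cancel, cc_succ μ i j, cc_succ μ i (j - 1)]
      push_cast
      ring

lemma cc_rec (μ : ℝ) (i j : ℕ) : cc μ (i + 1) j =
    (X + C μ) * (cc μ i j + derivative (cc μ i j)) - C (i + μ) * cc μ i j -
      C (i * μ) * cc μ (i - 1) j := by
  rw [cc_der, cc_succ]
  rcases i with _ | i
  · simp
    ring
  · rw [Nat.add_sub_cancel]
    have h := cc_succ μ i j
    simp only [map_add, map_mul, map_natCast]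
    linear_combination ((i + 1 : ℕ) : ℝ[X]) * h

lemma Psi_cc (μ x : ℝ) (i : ℕ) : ∀ j, Psi μ x (cc μ i j) = chR μ i x * chR μ j x := by
  induction i using Nat.strong_induction_on with
  | _ i ih =>
    intro j
    rcases i with _ | i
    · rw [cc_zero, Psi_pow, chR_zero, one_mul]
    · rw [cc_rec, Psi_sub, Psi_sub, ← Psi_X, Psi_C_mul, Psi_C_mul, ih i (by omega),
        ih (i - 1) (by omega), chR_succ]
      ring

lemma cc_nonneg (μ : ℝ) (hμ : 0 ≤ μ) (i : ℕ) : ∀ j l, 0 ≤ (cc μ i j).coeff l := by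
  induction i with
  | zero =>
    intro j l
    rw [cc_zero, coeff_X_pow]
    split_ifs <;> norm_num
  | succ i ih =>
    intro j l
    have hX : ∀ p : ℝ[X], (∀ l, 0 ≤ p.coeff l) → ∀ l, 0 ≤ (X * p).coeff l := by
      intro p hp l
      rcases l with _ | l
      · simp
      · rw [coeff_X_mul]; exact hp l
    rw [cc_succ, coeff_add]
    refine add_nonneg (hX _ (ih j) l) ?_
    have : (j : ℝ[X]) * ((X + C μ) * cc μ i (j - 1)) =
      C (j : ℝ) * (X * cc μ i (j - 1) + C μ * cc μ i (j - 1)) := by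
      rw [map_natCast]; ring
    rw [this, coeff_C_mul, coeff_add, coeff_C_mul]
    exact mul_nonneg (Nat.cast_nonneg _) (add_nonneg (hX _ (ih _) l) (mul_nonneg hμ (ih _ _)))

lemma cc_deg (μ : ℝ) (i : ℕ) : ∀ j, (cc μ i j).natDegree ≤ i + j := by
  induction i with
  | zero =>
    intro j
    rw [cc_zero]
    simp
  | succ i ih =>
    intro j
    rw [cc_succ]
    refine natDegree_add_le_of_degree_le ?_ ?_
    · refine natDegree_mul_le.trans ?_
      have := ih j
      have := natDegree_X_le (R := ℝ)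
      omega
    · rcases j with _ | j
      · simp
      · refine natDegree_mul_le.trans ?_
        rw [natDegree_natCast, zero_add]
        refine natDegree_mul_le.trans ?_
        have h1 := ih j
        have h2 : (X + C μ : ℝ[X]).natDegree = 1 := natDegree_X_add_C μ
        rw [Nat.add_sub_cancel]
        omega

lemma cc_zz (μ : ℝ) : (cc μ 0 0).coeff 0 = 1 := by
  rw [cc_zero]; simp

/-! Christoffel-Darboux -/

lemma CD (μ x y : ℝ) (hμ : 0 < μ) (n : ℕ) :
    (x - y) * ∑ i ∈ range (n + 1), chR μ i y / (μ ^ i * i.factorial) * chR μ i x =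
      (chR μ (n + 1) x * chR μ n y - chR μ n x * chR μ (n + 1) y) / (μ ^ n * n.factorial) := by
  induction n with
  | zero =>
    simp [chR_zero, chR_succ]
  | succ n ih =>
    rw [sum_range_succ, mul_add, ih, chR_succ μ x (n + 1), chR_succ μ y (n + 1),
      Nat.add_sub_cancel]
    have h1 : (μ ^ n * (n.factorial : ℝ)) ≠ 0 := by positivity
    have h2 : μ ^ (n + 1) * ((n + 1).factorial : ℝ) = (μ ^ n * n.factorial) * ((n + 1) * μ) := by
      rw [Nat.factorial_succ]; push_cast; ring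
    rw [h2]
    have h3 : ((n : ℝ) + 1) * μ ≠ 0 := by positivity
    field_simp
    push_cast
    ring

/-! The largest zero -/

lemma chR_cont (μ : ℝ) (j : ℕ) : Continuous (chR μ j) := by
  unfold chR
  fun_prop

lemma chR_large (μ : ℝ) (hμ : 0 < μ) (r : ℕ) (x : ℝ) (hx : 1 + r + μ + r * μ ≤ x) :
    ∀ j, j ≤ r → 1 ≤ chR μ j x ∧ (j + 1 ≤ r → chR μ j x ≤ chR μ (j + 1) x) := by
  intro j
  induction j with
  | zero =>
    intro _
    rw [chR_zero, chR_succ, chR_zero]
    refine ⟨le_refl _, fun hr => ?_⟩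
    have : (1 : ℝ) ≤ r := by exact_mod_cast hr
    have : 0 ≤ (r : ℝ) * μ := by positivity
    simp
    linarith
  | succ j ih =>
    intro hj
    obtain ⟨h1, h2⟩ := ih (by omega)
    have h3 := h2 hj
    refine ⟨h1.trans h3, fun hr => ?_⟩
    rw [chR_succ μ x (j + 1), Nat.add_sub_cancel]
    have h4 : ((j + 1 : ℕ) : ℝ) ≤ r := by exact_mod_cast hj
    have h5 : ((j + 1 : ℕ) : ℝ) * μ ≤ r * μ := mul_le_mul_of_nonneg_right h4 hμ.le
    have h6 : 0 ≤ ((j + 1 : ℕ) : ℝ) * μ := by positivity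
    have h7 : ((j + 1 : ℕ) : ℝ) * μ * chR μ j x ≤ ((j + 1 : ℕ) : ℝ) * μ * chR μ (j + 1) x :=
      mul_le_mul_of_nonneg_left h3 h6
    have h8 : 0 ≤ chR μ (j + 1) x := by linarith
    have h9 : 1 * chR μ (j + 1) x ≤ (x - ((j + 1 : ℕ) : ℝ) - μ - ((j + 1 : ℕ) : ℝ) * μ) *
        chR μ (j + 1) x := by
      apply mul_le_mul_of_nonneg_right _ h8
      linarith
    nlinarith

lemma chR_pos_large (μ : ℝ) (hμ : 0 < μ) (r : ℕ) (x : ℝ) (hx : 1 + r + μ + r * μ ≤ x) :
    0 < chR μ r x :=
  lt_of_lt_of_le one_pos (chR_large μ hμ r x hx r le_rfl).1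

lemma top (μ : ℝ) (hμ : 0 < μ) (i : ℕ) (y : ℝ) (hy : chR μ i y ≤ 0) :
    ∃ z, y ≤ z ∧ chR μ i z = 0 ∧ ∀ w, z < w → 0 < chR μ i w := by
  set B : ℝ := 1 + i + μ + i * μ with hB
  have hcl : IsClosed {z : ℝ | chR μ i z ≤ 0} := isClosed_le (chR_cont μ i) continuous_const
  have hbd : BddAbove {z : ℝ | chR μ i z ≤ 0} := by
    refine ⟨B, fun z hz => ?_⟩
    by_contra hcon
    push Not at hcon
    exact absurd (chR_pos_large μ hμ i z hcon.le) (not_lt.mpr hz)
  have hne : ({z : ℝ | chR μ i z ≤ 0}).Nonempty := ⟨y, hy⟩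
  have hmem := hcl.csSup_mem hne hbd
  refine ⟨sSup {z : ℝ | chR μ i z ≤ 0}, le_csSup hbd hy, ?_, ?_⟩
  · refine le_antisymm hmem ?_
    -- limit from the right
    set z := sSup {z : ℝ | chR μ i z ≤ 0} with hz
    have hpos : ∀ w, z < w → 0 ≤ chR μ i w := by
      intro w hw
      by_contra hcon
      push Not at hcon
      exact absurd (le_csSup hbd (show w ∈ {z : ℝ | chR μ i z ≤ 0} from hcon.le)) (not_le.mpr hw)
    have hcl2 : IsClosed {w : ℝ | 0 ≤ chR μ i w} := isClosed_le continuous_const (chR_cont μ i)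
    have : closure (Set.Ioi z) ⊆ {w : ℝ | 0 ≤ chR μ i w} :=
      hcl2.closure_subset_iff.mpr (fun w hw => hpos w hw)
    rw [closure_Ioi] at this
    exact this (Set.mem_Ici.mpr le_rfl)
  · intro w hw
    by_contra hcon
    push Not at hcon
    exact absurd (le_csSup hbd (show w ∈ {z : ℝ | chR μ i z ≤ 0} from hcon)) (not_le.mpr hw)

/-- positivity beyond `x` is inherited by the lower degrees -/
lemma down (μ : ℝ) (hμ : 0 < μ) (i : ℕ) : ∀ x : ℝ, (∀ y, x < y → 0 < chR μ (i + 1) y) →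
    ∀ y, x < y → 0 < chR μ i y := by
  induction i with
  | zero =>
    intro x _ y _
    rw [chR_zero]; exact one_pos
  | succ i ih =>
    intro x hx y hy
    by_contra hcon
    push Not at hcon
    obtain ⟨z, hyz, hz0, hzp⟩ := top μ hμ (i + 1) y hcon
    have h1 := ih z hzp
    have hcl2 : IsClosed {w : ℝ | 0 ≤ chR μ i w} := isClosed_le continuous_const (chR_cont μ i)
    have h2 : closure (Set.Ioi z) ⊆ {w : ℝ | 0 ≤ chR μ i w} :=
      hcl2.closure_subset_iff.mpr (fun w hw => (h1 w hw).le)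
    rw [closure_Ioi] at h2
    have h3 : 0 ≤ chR μ i z := h2 (Set.mem_Ici.mpr le_rfl)
    have h4 := hx z (by linarith)
    rw [chR_succ, hz0, Nat.add_sub_cancel] at h4
    have h5 : 0 ≤ ((i + 1 : ℕ) : ℝ) * μ * chR μ i z := by positivity
    linarith

lemma down_all (μ : ℝ) (hμ : 0 < μ) (r : ℕ) (x : ℝ) (hx : ∀ y, x < y → 0 < chR μ r y) :
    ∀ i ≤ r, 0 ≤ chR μ i x := by
  have key : ∀ k i, i + k = r → ∀ y, x < y → 0 < chR μ i y := by
    intro k
    induction k with
    | zero => intro i hi; rw [← hi] at hx; simpa using hx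
    | succ k ih =>
      intro i hi
      exact down μ hμ i x (ih (i + 1) (by omega))
  intro i hi
  have h1 := key (r - i) i (by omega)
  have hcl2 : IsClosed {w : ℝ | 0 ≤ chR μ i w} := isClosed_le continuous_const (chR_cont μ i)
  have h2 : closure (Set.Ioi x) ⊆ {w : ℝ | 0 ≤ chR μ i w} :=
    hcl2.closure_subset_iff.mpr (fun w hw => (h1 w hw).le)
  rw [closure_Ioi] at h2
  exact h2 (Set.mem_Ici.mpr le_rfl)

lemma Pr_nat (X i : ℕ) : Pr (X : ℝ) i = (X.descFactorial i : ℝ) := by
  induction i with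
  | zero => simp [Pr]
  | succ i ih =>
    have : Pr (X : ℝ) (i + 1) = Pr (X : ℝ) i * ((X : ℝ) - (i : ℕ)) := by
      unfold Pr; rw [Finset.prod_range_succ]
    rw [this, ih, Nat.descFactorial_succ]
    push_cast
    by_cases h : i ≤ X
    · rw [Nat.cast_sub h]; ring
    · push Not at h
      rw [Nat.descFactorial_of_lt h]; simp

lemma chR_nat (μ : ℝ) (j X : ℕ) : chR μ j (X : ℝ) = ch μ j X := by
  unfold chR ch
  refine sum_congr rfl (fun i _ => ?_)
  have := Pr_nat X i
  unfold Pr at this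
  rw [this]

theorem chz : StmCh := by
  intro r M μ h0 hr hμ hM0 hz0
  obtain ⟨h, hh, hz, hp⟩ := top μ hμ r h0 hz0.le
  have hM : (M : ℝ) < h := lt_of_lt_of_le hM0 hh
  have hnn := down_all μ hμ r h hp
  obtain ⟨n, rfl⟩ : ∃ n, r = n + 1 := ⟨r - 1, by omega⟩
  -- the kernel
  set k : ℕ → ℝ := fun i => chR μ i h / (μ ^ i * i.factorial) with hk
  have hk0 : k 0 = 1 := by simp [hk, chR_zero]
  have hknn : ∀ i ≤ n + 1, 0 ≤ k i := fun i hi => div_nonneg (hnn i hi) (by positivity)
  have hK : ∀ x : ℝ, (x - h) * ∑ i ∈ range (n + 1), k i * chR μ i x = k n * chR μ (n + 1) x := by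
    intro x
    have := CD μ x h hμ n
    rw [hz, mul_zero, sub_zero] at this
    rw [this]
    simp only [hk]
    ring
  set F : ℝ[X] := C (k n) * ∑ i ∈ range (n + 1), C (k i) * cc μ (n + 1) i +
    C (h - M) * ∑ i ∈ range (n + 1), ∑ j ∈ range (n + 1), C (k i * k j) * cc μ i j with hF
  have hFnn : ∀ l, 0 ≤ F.coeff l := by
    intro l
    rw [hF, coeff_add, coeff_C_mul, coeff_C_mul, finsetSum_coeff, finsetSum_coeff]
    refine add_nonneg (mul_nonneg (hknn n (by omega)) (sum_nonneg fun i hi => ?_))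
      (mul_nonneg (by linarith) (sum_nonneg fun i hi => ?_))
    · rw [coeff_C_mul]
      exact mul_nonneg (hknn i (by have := mem_range.mp hi; omega)) (cc_nonneg μ hμ.le _ _ _)
    · rw [finsetSum_coeff]
      refine sum_nonneg fun j hj => ?_
      rw [coeff_C_mul]
      exact mul_nonneg (mul_nonneg (hknn i (by have := mem_range.mp hi; omega))
        (hknn j (by have := mem_range.mp hj; omega))) (cc_nonneg μ hμ.le _ _ _)
  have hF0 : 0 < F.coeff 0 := by
    rw [hF, coeff_add, coeff_C_mul, coeff_C_mul, finsetSum_coeff, finsetSum_coeff]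
    refine add_pos_of_nonneg_of_pos (mul_nonneg (hknn n (by omega)) (sum_nonneg fun i hi => ?_))
      (mul_pos (by linarith) (lt_of_lt_of_le one_pos ?_))
    · rw [coeff_C_mul]
      exact mul_nonneg (hknn i (by have := mem_range.mp hi; omega)) (cc_nonneg μ hμ.le _ _ _)
    · have hnn2 : ∀ i ∈ range (n + 1), ∀ j ∈ range (n + 1),
          0 ≤ (C (k i * k j) * cc μ i j).coeff 0 := by
        intro i hi j hj
        rw [coeff_C_mul]
        exact mul_nonneg (mul_nonneg (hknn i (by have := mem_range.mp hi; omega))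
          (hknn j (by have := mem_range.mp hj; omega))) (cc_nonneg μ hμ.le _ _ _)
      have h00 : (0 : ℕ) ∈ range (n + 1) := by simp
      have h1 : (∑ j ∈ range (n + 1), C (k 0 * k j) * cc μ 0 j).coeff 0 ≤
          ∑ i ∈ range (n + 1), (∑ j ∈ range (n + 1), C (k i * k j) * cc μ i j).coeff 0 := by
        refine single_le_sum (f := fun i => (∑ j ∈ range (n + 1), C (k i * k j) * cc μ i j).coeff 0)
          (fun i hi => ?_) h00
        rw [finsetSum_coeff]
        exact sum_nonneg fun j hj => hnn2 i hi j hj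
      refine le_trans ?_ h1
      rw [finsetSum_coeff]
      have h2 : (C (k 0 * k 0) * cc μ 0 0).coeff 0 ≤
          ∑ j ∈ range (n + 1), (C (k 0 * k j) * cc μ 0 j).coeff 0 :=
        single_le_sum (f := fun j => (C (k 0 * k j) * cc μ 0 j).coeff 0)
          (fun j hj => hnn2 0 h00 j hj) h00
      refine le_trans ?_ h2
      rw [coeff_C_mul, cc_zz, hk0]
      norm_num
  have hFdeg : F.natDegree ≤ 2 * n + 1 := by
    rw [hF]
    refine natDegree_add_le_of_degree_le ?_ ?_
    · refine natDegree_mul_le.trans ?_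
      rw [natDegree_C, zero_add]
      refine natDegree_sum_le_of_forall_le _ _ fun i hi => ?_
      refine natDegree_mul_le.trans ?_
      rw [natDegree_C, zero_add]
      have := cc_deg μ (n + 1) i
      have := mem_range.mp hi
      omega
    · refine natDegree_mul_le.trans ?_
      rw [natDegree_C, zero_add]
      refine natDegree_sum_le_of_forall_le _ _ fun i hi => ?_
      refine natDegree_sum_le_of_forall_le _ _ fun j hj => ?_
      refine natDegree_mul_le.trans ?_
      rw [natDegree_C, zero_add]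
      have := cc_deg μ i j
      have := mem_range.mp hi
      have := mem_range.mp hj
      omega
  have hPF : ∀ x : ℝ, Psi μ x F = (x - M) * (∑ i ∈ range (n + 1), k i * chR μ i x) ^ 2 := by
    intro x
    have e1 : Psi μ x (C (k n) * ∑ i ∈ range (n + 1), C (k i) * cc μ (n + 1) i) =
        (k n * chR μ (n + 1) x) * ∑ i ∈ range (n + 1), k i * chR μ i x := by
      rw [Psi_C_mul, Psi_sum, mul_assoc, mul_sum (a := chR μ (n + 1) x)]
      congr 1
      refine sum_congr rfl fun i _ => ?_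
      rw [Psi_C_mul, Psi_cc]; ring
    have e2 : Psi μ x (C (h - M) * ∑ i ∈ range (n + 1), ∑ j ∈ range (n + 1),
        C (k i * k j) * cc μ i j) = (h - M) * (∑ i ∈ range (n + 1), k i * chR μ i x) ^ 2 := by
      rw [Psi_C_mul, Psi_sum, sq, sum_mul_sum]
      congr 1
      refine sum_congr rfl fun i _ => ?_
      rw [Psi_sum]
      refine sum_congr rfl fun j _ => ?_
      rw [Psi_C_mul, Psi_cc]; ring
    rw [hF, Psi_add, e1, e2, ← hK x]
    ring
  have hPF2 : ∀ x : ℝ, Psi μ x F = ∑ l ∈ range (2 * n + 2), F.coeff l * chR μ l x := by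
    intro x
    conv_lhs => rw [F.as_sum_range_C_mul_X_pow' (n := 2 * n + 2) (by omega)]
    rw [Psi_sum]
    refine sum_congr rfl fun l _ => ?_
    rw [Psi_C_mul, Psi_pow]
  refine ⟨fun l => F.coeff l, hFnn, fun X hX => ?_⟩
  have h1 := hPF2 (X : ℝ)
  rw [hPF (X : ℝ)] at h1
  have h2 : ((X : ℝ) - M) * (∑ i ∈ range (n + 1), k i * chR μ i X) ^ 2 ≤ 0 := by
    apply mul_nonpos_of_nonpos_of_nonneg _ (sq_nonneg _)
    have : (X : ℝ) ≤ M := by exact_mod_cast hX
    linarith
  have h3 : ∑ l ∈ range (2 * n + 2), F.coeff l * chR μ l (X : ℝ) =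
      F.coeff 0 + ∑ l ∈ Icc 1 (2 * (n + 1) - 1), F.coeff l * ch μ l X := by
    rw [sum_range_succ', chR_zero, mul_one, add_comm]
    congr 1
    have : Icc 1 (2 * (n + 1) - 1) = (range (2 * n + 1)).image (fun l => l + 1) := by
      ext l
      simp only [mem_Icc, mem_image, mem_range]
      constructor
      · rintro ⟨h1, h2⟩
        exact ⟨l - 1, by omega, by omega⟩
      · rintro ⟨a, ha, rfl⟩
        omega
    rw [this, sum_image (fun a _ b _ hab => by simpa using hab)]
    refine sum_congr rfl fun l _ => ?_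
    rw [chR_nat]
  rw [h3] at h1
  linarith

end Pool.Agent.N354.ZK
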